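import Pool.Agent.Run7.h848.XG.Alternating

/-!
# Alternating products of zero-cycles on a surface, above the rank of the transcendental lattice

Let `S` be a smooth projective complex surface, `M = t₂(S)` the transcendental part of its Chow motive (with
`CH²(t₂(S)) = A²_AJ(S)_ℚ`, the Albanese-trivial zero-cycles), and `b` the dimension of its cohomology, the rank of the
transcendental lattice of `S`; let `b > 0`. The question asks whether the alternating sums
`∑ sgn(σ) a_σ(1) × ⋯ × a_σ(n)` of Albanese-trivial zero-cycles are zero for all `n > p_g(S)`. By Kimura this is true for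
`n > b` if `S` is finite-dimensional. Let `ε(n)` be the rank of the group of the self-correspondences (of degree zero) of
the motive `M ^ n`, a direct summand of `CH^(2 n)(S ^ n × S ^ n)`, modulo numerical equivalence (`ε(n) ≤ b ^ (2 n)`), and

  `N(b) = 4 (b + 1) b ^ (4 (b + 1))`.

**Theorem.** (1) One of the following holds:
* for ALL `n > b` all alternating cycles on `M ^ n` are zero, in particular `∑ sgn(σ) a_σ(1) × ⋯ × a_σ(n) = 0` for all
  Albanese-trivial zero-cycles `a_1, …, a_n` (rational coefficients, so also integral ones, by Roitman);
* for ALL `n ≥ 0`

  `dim End(M ^ ((b + 1) n)) ≥ ∑ i ≤ n, (n choose i) ε((b + 1) (n - i)) ≥`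
  `(b ^ (2 b + 2) + 1) ^ n / ((b + 1) n + 1) ^ (b ^ 2)`,

  where the dimension of the space of the self-correspondences modulo rational equivalence may be infinite.

(2) If `dim End(M ^ N) ≤ b ^ (2 N)` for the ONE number `N = N(b)` then the first alternative holds: the assertion of
the question is true for `S` and all `n > b`.

So a single non-zero alternating sum of `n > b` Albanese-trivial zero-cycles makes the spaces of the correspondences of
the powers of `t₂(S)` grow exponentially faster than their numerical (and homological) quotients, from the first
power on, with an explicit constant which depends on `b` only.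

The setting. `C` is the category of the Chow motives over `ℂ` with rational coefficients, `R` the singular cohomology with
coefficients extended to an algebraically closed field; `par M = 1` says that the cohomology of `M` is even.
`tp M n` is `M ⊗ ⋯ ⊗ M`, `IsSwap M n s` says that `s` exchanges two neighbouring factors; the alternating sums above
are morphisms `u` from the `2 n`-th power of the Lefschetz motive to `M ^ n` with `u ≫ s = -u`. The theorem is valid for
all even objects `M` with `b > 0`.

Proof. The antisymmetrizer `a` of `M ^ (b + 1)` has trace zero, so it acts as zero on the cohomology. If it is zero, then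
the antisymmetrizers of all `M ^ n`, `n > b`, are zero, and they fix all alternating morphisms to `M ^ n`. Otherwise
`a` is a homologically trivial idempotent. Let `P = (M ^ (b + 1))ᘁ ⊗ M ^ (b + 1)` and `z` the class of `a` on `P`. The
insertions of `z` into a subset of the `n` factors of `P ^ n`, with arbitrary classes on the product of the other
factors, are independent modulo numerical equivalence (`many_dual`). (2): see `num_bound`.
-/

set_option autoImplicit false

open CategoryTheory MonoidalCategory
open Pool.Agent.Y112.SR Pool.Agent.Y112.KD Pool.Agent.N64.AF Pool.Agent.Run7.h848.XG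

namespace Pool.Agent.Results.MP_83b46e_ag.AboveTheRank

universe v u w

/-- Alternating cycles on the powers of an even object above its dimension vanish, or there is explicit
exponential growth; one power decides. -/
theorem result {C : Type u} [Category.{v} C] [Preadditive C] [MonoidalCategory C]
    [MonoidalPreadditive C] [SymmetricCategory C] [RightRigidCategory C]
    [Linear ℚ C] [MonoidalLinear ℚ C] [IsIdempotentComplete C]
    {K : Type w} [Field K] [IsAlgClosed K] [Algebra ℚ K] {R : SuperRealisation C K}
    (hR : IsReal ℚ R) {M : C} (hM : R.par M = 𝟙 _) (hb : 0 < bt R M) :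
    (AlternatingVanish M (bt R M) ∨ ∀ n : ℕ, ((∑ i ∈ Finset.range (n + 1), n.choose i *
        homRank ℚ (tp M ((bt R M + 1) * (n - i))) (tp M ((bt R M + 1) * (n - i))) : ℕ) : ℕ∞) ≤
      dimE ℚ (tp M ((bt R M + 1) * n) ⟶ tp M ((bt R M + 1) * n))) ∧
    (∀ n : ℕ, (bt R M ^ (2 * (bt R M + 1)) + 1) ^ n ≤ ((bt R M + 1) * n + 1) ^ (bt R M ^ 2) *
      ∑ i ∈ Finset.range (n + 1), n.choose i *
        homRank ℚ (tp M ((bt R M + 1) * (n - i))) (tp M ((bt R M + 1) * (n - i)))) ∧
    (dimE ℚ (tp M (decisiveEnd (bt R M)) ⟶ tp M (decisiveEnd (bt R M))) ≤
      (bt R M ^ (2 * decisiveEnd (bt R M)) : ℕ) → AlternatingVanish M (bt R M)) :=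
  ⟨alternating_or hR hM hb,
    sum_ge_end hR ⟨𝟙 M, by rw [CategoryTheory.Functor.map_id, hM, two_smul]⟩ (bt R M + 1),
    alternating_one hR hM hb⟩

end Pool.Agent.Results.MP_83b46e_ag.AboveTheRank
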