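import Pool.Agent.Run7.h780.VQ.WrMain

/-!
# Voisin's conjecture for mixed quotients of squares of curves

Let `k` be an algebraically closed field (for the problem: `k = ℂ`), let the group `G = {1, -1}^r` act on
a smooth projective connected curve `C` over `k`, let `H` be a subgroup of `G × G` which is stable under
the exchange of the factors, and `g₀` an element of `G` with `(g₀, g₀) ∈ H`. The automorphisms

  `(x, y) ↦ (g x, h y)` (`(g, h) ∈ H`)   and   `(x, y) ↦ (y, g₀ x)`

of `C × C` form a group `H'` of mixed type; up to the choice of coordinates, all the groups of
automorphisms generated by elements of `G × G` and the exchange of the factors, not contained in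
`G × G`, are of this form (subgroups of the wreath product of `G` and `ℤ/2`; for `H = {(g, φ(g))}`, `φ² = 1`,
these are the groups of mixed type whose subgroup of index two is `G`, for example `ℤ/4` and the
dihedral group of order 8). Let `q : C × C → S` be a morphism which is invariant under `H'`, for
example the quotient morphism onto `S = (C × C) / H'`. For a character `χ` of `G` let `γ(χ)` be the genus of
the quotient of `C` by the kernel of `χ`, and

  `2 b = ∑ γ(χ₁) γ(χ₂) - ∑ χ(g₀) γ(χ)`,

the first sum over the pairs of characters such that `χ₁ ⊗ χ₂` is trivial on `H`, the second sum over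
the characters such that `χ ⊗ χ` is trivial on `H`.
We prove: if `n > b`, then the alternating sum `∑ sgn(σ) b_σ(1) × ⋯ × b_σ(n)` is rationally equivalent
to zero on `S^n` for all the zero-cycles `b_i = q_* a_i` on `S` of degree zero and with trivial image in the
Albanese variety, which is isogenous to the Jacobian variety of `C / P`, where `P` is the projection of
`H` to `G`. For `S = (C × C) / H'` all Albanese-trivial zero-cycles (with rational coefficients) are
of this form, and there are two cases in which `b` is the geometric genus of (a resolution of) `S`, so
that Voisin's conjecture is true for `S` (the singularities are quotient singularities, which do not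
change the groups of zero-cycles):

* `C / G` is rational. Then `γ(χ)` is for `χ ≠ 1` the genus of a covering of degree at most two of the
  projective line, and this is the dimension of `H⁰(C, K)_χ`. The involution on the `2`-forms on `C × C`
  exchanges the parts of `(χ₁, χ₂)` and of `(χ₂, χ₁)`, and its invariants in the part of `(χ, χ)` are the
  alternating (`χ(g₀) = 1`) or symmetric (`χ(g₀) = -1`) tensors; therefore `p_g(S) = b`. If moreover `H`
  projects onto `G`, then the Albanese variety of `S` is zero, and all the zero-cycles of degree zero are
  admitted (first part of the theorem). This includes the quotients of symmetric squares of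
  curves by `(ℤ/2)^r` with `C / (ℤ/2)^r` rational, and surfaces of general type with arbitrarily large
  geometric genus.
* `r = 0`: `S` is the symmetric square of an arbitrary curve `C` of genus `g`, `b = g (g - 1) / 2 = p_g(S)`.
  This case is due to helper220 (formerly the hand-in `SymmetricSquares` of this problem).

If the genus of `C / G` is positive and `r > 0`, then `b` is larger than the geometric genus in general.

## Proof

As in the result `QuotientsByInvolutions` of this problem we decompose `q_* (x × y)` into its parts in the
pairs of characters. The exchange of the factors maps the part of `(χ₁, χ₂)` of the point `(x, y)` to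
`χ₁(g₀)` times the part of `(χ₂, χ₁)` of the point `(y, x)`. Among the `n` places there are either more than
`γ(χ₁) γ(χ₂)` places with the pairs `(χ₁, χ₂)` or `(χ₂, χ₁)`, `χ₁ ≠ χ₂`, and the alternation over these
places gives zero by the second fundamental theorem for pairs of vectors and covectors; or there are
more than `γ(χ) (γ(χ) - χ(g₀)) / 2` places with the same pair `(χ, χ)`, and the alternation over these
places gives zero by the analogous theorem for alternating or symmetric forms (`block_mixed_u`; the
symmetrized products of more than `γ(χ)` zero-cycles in the part of `χ` are zero, also after the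
identification of variables). The library `Pool.Agent.Run7.h220` of helper220 is used, in particular
the theorem on alternating sums over symmetric pairs.
-/

set_option autoImplicit false

open CategoryTheory CategoryTheory.Limits AlgebraicGeometry

universe u

namespace Pool.Agent.Results.MP_83b46e_ag.MixedQuotients

open Run7.h220.ZC Pool.Agent.Run7.h780.VQ

open Classical in
/-- **Voisin's conjecture for the mixed quotients** `S` of `C × C`: `q(g x, h y) = q(x, y)` for `(g, h) ∈ H`
(`hq`) and `q(y, g₀ x) = q(x, y)` (`hs`), where the group `G = {1, -1}^r` acts on `C`, and `H` is a subgroup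
of `G × G`, stable under the exchange of the factors; `γ T` is the genus of the quotient of `C` by the
kernel of the character `χ_T`. The assumption `w` says that the coverings of degree two of `C / G` given by
the characters are ramified (this is automatic if `C / G` is rational). If `C / G` is rational and `H`
projects onto `G`, then all the zero-cycles of degree zero are Albanese-trivial. -/
theorem result {k : Type u} [Field k] [IsAlgClosed k] {r : ℕ} (C S : Over (Spec (.of k)))
    [Curve C] (ρ : (Fin r → ℤˣ) →* End C)
    (H : Subgroup ((Fin r → ℤˣ) × (Fin r → ℤˣ))) (hH : ∀ h ∈ H, h.swap ∈ H) (g₀ : Fin r → ℤˣ)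
    (q : C ⨯ C ⟶ S) (hq : ∀ h ∈ H, prod.map (ρ h.1 : C ⟶ C) (ρ h.2 : C ⟶ C) ≫ q = q)
    (hs : prod.lift prod.snd (prod.fst ≫ (ρ g₀ : C ⟶ C)) ≫ q = q)
    (γ : Finset (Fin r) → ℕ) (h : ∀ T, HasQuotientGenus ρ T (γ T))
    (w : ∀ T, T.Nonempty → Ramified ρ T) :
    (γ ∅ = 0 → (∀ g, ∃ h ∈ H, h.2 = g) →
      ∀ a : ZeroCycle (C ⨯ C), a.sum (fun _ c => c) = 0 → AlbTrivialW H ρ a) ∧
    ∀ n : ℕ, ∑ p : Finset (Fin r) × Finset (Fin r) with AgreeW H p.1 p.2,
      ((γ p.1 : ℤ) * γ p.2 - if p.1 = p.2 then (chi p.1 g₀ : ℤ) * γ p.1 else 0) < 2 * n →
    ∀ a : Fin n → ZeroCycle (C ⨯ C), (∀ i, AlbTrivialW H ρ (a i)) →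
    ∑ σ : Equiv.Perm (Fin n), ((Equiv.Perm.sign σ : ℤ) : ℚ) • ext (fun i => push q (a (σ i))) ∈
      ratZero (∏ᶜ fun _ : Fin n => S) :=
  ⟨fun z hsur _ ha => albTrivialW_of_surj (z ▸ (h ∅).1) hsur ha, fun _ hn a ha =>
    voisin_W hH hq hs γ (fun T => (h T).1) w (lt_of_fw hn) a ha⟩

end Pool.Agent.Results.MP_83b46e_ag.MixedQuotients
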