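import Pool.Agent.Run7.h220.ZCProd

/-!
# Voisin's conjecture for products of two curves

Let `k` be an algebraically closed field (for the problem: `k = ℂ`), `C₁` and `C₂` smooth projective
connected curves over `k` of genus `g₁` and `g₂`, and `S = C₁ × C₂`, a surface of geometric genus
`p_g(S) = g₁ g₂`. Then for `n > g₁ g₂` and all Albanese-trivial zero-cycles `a_1, ..., a_n` on `S`
(with rational coefficients) the alternating sum `∑ sgn(σ) a_σ(1) × ⋯ × a_σ(n)` is rationally
equivalent to zero on `S^n`. By the theorem of Roitman this is equivalent to the same assertion with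
integral coefficients.

The zero-cycles are those of the schemes `S` and `S^n`; rational equivalence is generated by the
push-forwards of the divisors of rational functions on smooth projective curves mapping to the scheme.

## Proof

(1) Let `C` be a curve of genus `g`, and `m > g`. The sum over all permutations of
`([x_σ(1)] - [o]) × ⋯ × ([x_σ(m)] - [o])` depends on the class of the divisor `x_1 + ⋯ + x_m` only:
by induction on `m`, it is a polynomial in this class, its push-forwards under diagonals and external
products. By the theorem of Riemann `x_1 + ⋯ + x_m - o` is equivalent to an effective divisor, so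
`x_1 = o` without restriction, and the sum is zero.
(2) The Albanese kernel of `C₁ × C₂` is generated by the `([x] - [o]) × ([y] - [o'])`. The group
algebra of the symmetric group of degree `n > g₁ g₂` is generated by the symmetrizations over
`g₁ + 1` positions (for the first factors) and the antisymmetrizations over `g₂ + 1` positions (for
the second factors): second fundamental theorem of invariant theory for `GL(g₁) × GL(g₂)`, in the
form of the starting file `Pool.Agent.R904.Voi.Alt`.
-/

set_option autoImplicit false

open CategoryTheory CategoryTheory.Limits AlgebraicGeometry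

universe u

namespace Pool.Agent.Results.MP_83b46e_ag.ProductsOfCurves

open Run7.h220.ZC

/-- **Voisin's conjecture for the product of two curves** `C₁`, `C₂` of genus `g₁`, `g₂`: for
`n > g₁ g₂ = p_g(C₁ × C₂)` the alternating sum of the external products of `n` Albanese-trivial
zero-cycles is rationally equivalent to zero. -/
theorem result {k : Type u} [Field k] [IsAlgClosed k] (C₁ C₂ : Over (Spec (.of k)))
    [Curve C₁] [Curve C₂] (g₁ g₂ : ℕ) (h₁ : HasGenus C₁ g₁) (h₂ : HasGenus C₂ g₂)
    (n : ℕ) (hn : g₁ * g₂ < n) (a : Fin n → ZeroCycle (C₁ ⨯ C₂)) (ha : ∀ i, AlbTrivial (a i)) :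
    ∑ σ : Equiv.Perm (Fin n), ((Equiv.Perm.sign σ : ℤ) : ℚ) • ext (fun i => a (σ i)) ∈
      ratZero (∏ᶜ fun _ : Fin n => C₁ ⨯ C₂) :=
  voisin_prod h₁.1 h₂.1 hn a ha

end Pool.Agent.Results.MP_83b46e_ag.ProductsOfCurves
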