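import Pool.Agent.Run7.h780.VQ.Sub

/-!
# Voisin's conjecture for quotients of products of two curves by elementary abelian 2-groups

Let `k` be an algebraically closed field (for the problem: `k = ℂ`), let the group `G = {1, -1}^r` act on
two smooth projective connected curves `C₁`, `C₂` over `k` with rational quotients `C_i / G`, and let
`H` be a subgroup of `G`. Let `q : C₁ × C₂ → S` be a morphism which is invariant under the diagonal action
of `H`, for example the quotient morphism onto `S = (C₁ × C₂) / H`. For a character `χ` of `G` let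
`γ_i(χ)` be the genus of the quotient of `C_i` by the kernel of `χ`, a covering of degree at most two of the
projective line. The space of the regular differentials of `C_i` in the part of `χ` has dimension
`γ_i(χ)`, therefore the geometric genus of (a resolution of) `S` is

  `p_g(S) = dim (H⁰(C₁, K) ⊗ H⁰(C₂, K))^H = ∑_{χ₁|H = χ₂|H} γ₁(χ₁) γ₂(χ₂)`.

We prove: if `n > p_g(S)`, then the alternating sum `∑ sgn(σ) b_σ(1) × ⋯ × b_σ(n)` is rationally
equivalent to zero on `S^n` for all the zero-cycles `b_i = q_* a_i` on `S` of degree zero with trivial image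
in the Albanese variety, which is isogenous to the product of the Jacobian varieties of `C₁ / H` and
`C₂ / H`. For `S = (C₁ × C₂) / H` all the Albanese-trivial zero-cycles (with rational coefficients) are of
this form. So Voisin's conjecture is true for these surfaces (the singularities are nodes and do not
change the groups of zero-cycles). Some cases:

* `H = G`: the surfaces `(C₁ × C₂) / (ℤ/2)^r` with rational quotients `C_i / (ℤ/2)^r`, of irregularity zero; here all
  zero-cycles of degree zero are admitted (first part of the theorem), and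
  `p_g(S) = ∑_{χ ≠ 1} γ₁(χ) γ₂(χ)`. This includes surfaces of general type with arbitrarily large geometric
  genus (surfaces isogenous to a product and product-quotient surfaces with group `(ℤ/2)^r`). For `n = 1`
  this is Bloch's conjecture for those of geometric genus zero.
* `G = G₁ × G₂`, where `G_i` is an elementary abelian 2-group of automorphisms of `C_i` with rational
  quotient, and `H` is any subgroup of `G₁ × G₂`; for example the quotient by the involution `(σ₁, σ₂)`,
  where `C_i` is hyperelliptic with an additional involution `σ_i`. These surfaces have irregularity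
  `g(C₁ / H) + g(C₂ / H)`, which may be arbitrarily large.

## Proof

The zero-cycles on `C_i` decompose into the parts of the characters of `G`, and `q_* (x × y)` is up to a
factor the sum over the pairs `(χ₁, χ₂)` of the `q_* (x_χ₁ × y_χ₂)`; the term is zero if `χ₁` and `χ₂` do
not agree on `H`, and the terms with `χ₁ = 1` or `χ₂ = 1` do not contribute for Albanese-trivial
zero-cycles. So there are more than `γ₁(χ₁) γ₂(χ₂)` places with the same pair of characters among the `n`
places, and it is enough to alternate over these. The class of the symmetrized product of `m`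
zero-cycles `[x_j]_χ` depends on the class of the image of the divisor `x_1 + ⋯ + x_m` on `C / ker χ` only.
For `m > γ(χ)` this divisor is equivalent to an effective divisor which contains a point `w` with
`[w]_χ = 0` (a ramification point of the covering of degree two); hence the symmetrized product is zero.
The result follows from the second fundamental theorem of invariant theory, as in the result
`ProductsOfCurves` of this problem, whose library (`Pool.Agent.Run7.h220`) we use.
-/

set_option autoImplicit false

open CategoryTheory CategoryTheory.Limits AlgebraicGeometry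

universe u

namespace Pool.Agent.Results.MP_83b46e_ag.QuotientsByInvolutions

open Run7.h220.ZC Pool.Agent.Run7.h780.VQ

open Classical in
/-- **Voisin's conjecture for the quotients** `S` of `C₁ × C₂` by the subgroup `H` of the group `{1, -1}^r`,
which acts on the curves `C₁` and `C₂` with rational quotients (`z₁`, `z₂`); `γ_i T` is the genus of the
quotient of `C_i` by the kernel of the character `χ_T`, and `n > ∑ γ₁ T₁ * γ₂ T₂ = p_g(S)`, the sum over the
pairs of characters which agree on `H`. The assumptions `w₁`, `w₂` say that the coverings of degree two of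
the projective line given by the characters are ramified (this is automatic). For the whole group `H`
all zero-cycles of degree zero are Albanese-trivial. -/
theorem result {k : Type u} [Field k] [IsAlgClosed k] {r : ℕ} (C₁ C₂ S : Over (Spec (.of k)))
    [Curve C₁] [Curve C₂] (ρ₁ : (Fin r → ℤˣ) →* End C₁) (ρ₂ : (Fin r → ℤˣ) →* End C₂)
    (H : Subgroup (Fin r → ℤˣ)) (q : C₁ ⨯ C₂ ⟶ S)
    (hq : ∀ g ∈ H, prod.map (ρ₁ g : C₁ ⟶ C₁) (ρ₂ g : C₂ ⟶ C₂) ≫ q = q)
    (γ₁ γ₂ : Finset (Fin r) → ℕ)
    (h₁ : ∀ T, HasQuotientGenus ρ₁ T (γ₁ T)) (h₂ : ∀ T, HasQuotientGenus ρ₂ T (γ₂ T))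
    (z₁ : γ₁ ∅ = 0) (z₂ : γ₂ ∅ = 0)
    (w₁ : ∀ T, T.Nonempty → Ramified ρ₁ T) (w₂ : ∀ T, T.Nonempty → Ramified ρ₂ T) :
    (H = ⊤ → ∀ a : ZeroCycle (C₁ ⨯ C₂), a.sum (fun _ c => c) = 0 → AlbTrivialBy H ρ₁ ρ₂ a) ∧
    ∀ n : ℕ, ∑ p : Finset (Fin r) × Finset (Fin r) with Agree H p.1 p.2, γ₁ p.1 * γ₂ p.2 < n →
    ∀ a : Fin n → ZeroCycle (C₁ ⨯ C₂), (∀ i, AlbTrivialBy H ρ₁ ρ₂ (a i)) →
    ∑ σ : Equiv.Perm (Fin n), ((Equiv.Perm.sign σ : ℤ) : ℚ) • ext (fun i => push q (a (σ i))) ∈
      ratZero (∏ᶜ fun _ : Fin n => S) :=
  ⟨fun hH _ ha => hH ▸ albTrivialBy_top (z₁ ▸ (h₁ ∅).1) (z₂ ▸ (h₂ ∅).1) ha, fun _ hn a ha =>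
    voisin_sub hq γ₁ γ₂ (fun T => (h₁ T).1) (fun T => (h₂ T).1) z₁ z₂ w₁ w₂ (lt_Om hn) a ha⟩

end Pool.Agent.Results.MP_83b46e_ag.QuotientsByInvolutions
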